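import Mathlib


/-! # The coefficientwise derivation of polynomials and the splitting of a separable polynomial -/

open Polynomial

namespace PGH.PT

section PD

variable {E : Type*} [Field E] (D : Derivation ℤ E E)

/-- the derivation applied to the coefficients -/
noncomputable def pD : Derivation ℤ E[X] E[X] := @Differential.mapCoeffs E _ ⟨D⟩

@[simp] theorem coeff_pD (p : E[X]) (i : ℕ) : (pD D p).coeff i = D (p.coeff i) := rfl

theorem pD_C (c : E) : pD D (C c) = C (D c) := by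
  ext i
  rw [coeff_pD, coeff_C, coeff_C]
  split_ifs
  · rfl
  · exact map_zero D

theorem pD_X : pD D X = 0 := by
  ext i
  rw [coeff_pD, coeff_X, coeff_zero]
  split_ifs
  · exact D.map_one_eq_zero
  · exact map_zero D

theorem natDegree_pD_le (p : E[X]) : (pD D p).natDegree ≤ p.natDegree := by
  rw [natDegree_le_iff_coeff_eq_zero]
  intro i hi
  rw [coeff_pD, coeff_eq_zero_of_natDegree_lt hi, map_zero]

theorem degree_pD_lt {p : E[X]} (hp : p.Monic) : (pD D p).degree < p.degree := by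
  rw [degree_eq_natDegree hp.ne_zero, degree_lt_iff_coeff_zero]
  intro i hi
  rcases hi.eq_or_lt with h | h
  · rw [coeff_pD, ← h, hp.coeff_natDegree]
    exact D.map_one_eq_zero
  · rw [coeff_pD, coeff_eq_zero_of_natDegree_lt h, map_zero]

theorem deriv_eval (p : E[X]) (x : E) :
    D (p.eval x) = (pD D p).eval x + (derivative p).eval x * D x := by
  induction p using Polynomial.induction_on' with
  | add p q hp hq =>
    rw [eval_add, map_add, hp, hq, map_add, eval_add, derivative_add, eval_add]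
    ring
  | monomial n c =>
    have h1 : pD D (monomial n c) = monomial n (D c) := by
      ext i
      rw [coeff_pD, coeff_monomial, coeff_monomial]
      split_ifs
      · rfl
      · exact map_zero D
    rw [h1, eval_monomial, eval_monomial, D.leibniz, D.leibniz_pow, derivative_monomial,
      eval_monomial, smul_eq_mul, smul_eq_mul, nsmul_eq_mul, smul_eq_mul]
    ring

theorem deriv_eval_const (p : E[X]) {x : E} (hx : D x = 0) : D (p.eval x) = (pD D p).eval x := by
  rw [deriv_eval, hx, mul_zero, add_zero]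

/-- the splitting of a monic separable polynomial into a part with constant coefficients and a part
coprime to its coefficientwise derivative -/
theorem exists_split {Q : E[X]} (hQ : Q.Monic) (hs : Q.Separable) :
    ∃ Q₀ Q₁ : E[X], Q = Q₀ * Q₁ ∧ Q₀.Monic ∧ Q₁.Monic ∧ pD D Q₀ = 0 ∧ IsCoprime Q₁ (pD D Q₁) := by
  classical
  -- the greatest common divisor
  set g : E[X] := EuclideanDomain.gcd Q (pD D Q) with hg
  have hgQ : g ∣ Q := EuclideanDomain.gcd_dvd_left _ _
  have hgD : g ∣ pD D Q := EuclideanDomain.gcd_dvd_right _ _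
  have hg0 : g ≠ 0 := fun h => hQ.ne_zero (by rw [h] at hgQ; exact zero_dvd_iff.1 hgQ)
  set Q₀ : E[X] := g * C g.leadingCoeff⁻¹ with hQ₀
  have hm₀ : Q₀.Monic := monic_mul_leadingCoeff_inv hg0
  have hu : IsUnit (C g.leadingCoeff⁻¹) :=
    isUnit_C.2 (isUnit_iff_ne_zero.2 (inv_ne_zero (leadingCoeff_ne_zero.2 hg0)))
  have h0Q : Q₀ ∣ Q := by rw [hQ₀, hu.mul_right_dvd]; exact hgQ
  have h0D : Q₀ ∣ pD D Q := by rw [hQ₀, hu.mul_right_dvd]; exact hgD
  obtain ⟨Q₁, hQ₁⟩ := h0Q
  have hm₁ : Q₁.Monic := hm₀.of_mul_monic_left (by rw [← hQ₁]; exact hQ)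
  have hcop : IsCoprime Q₀ Q₁ := by
    have h1 := hs
    rw [hQ₁] at h1
    exact h1.isCoprime
  have hD : pD D Q = Q₀ * pD D Q₁ + Q₁ * pD D Q₀ := by
    rw [hQ₁, (pD D).leibniz, smul_eq_mul, smul_eq_mul]
  have hz : pD D Q₀ = 0 := by
    have h1 : Q₀ ∣ Q₁ * pD D Q₀ := by
      have h2 := dvd_sub h0D (dvd_mul_right Q₀ (pD D Q₁))
      rw [hD] at h2
      simpa using h2
    have h2 : Q₀ ∣ pD D Q₀ := hcop.dvd_of_dvd_mul_left h1
    exact eq_zero_of_dvd_of_degree_lt h2 (degree_pD_lt D hm₀)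
  refine ⟨Q₀, Q₁, hQ₁, hm₀, hm₁, hz, ?_⟩
  rw [hz, mul_zero, add_zero] at hD
  -- Bezout
  have hbez : g = Q * EuclideanDomain.gcdA Q (pD D Q) + pD D Q * EuclideanDomain.gcdB Q (pD D Q) :=
    EuclideanDomain.gcd_eq_gcd_ab _ _
  refine ⟨EuclideanDomain.gcdA Q (pD D Q) * C g.leadingCoeff⁻¹,
    EuclideanDomain.gcdB Q (pD D Q) * C g.leadingCoeff⁻¹, ?_⟩
  have h1 : Q₀ = Q₀ * (EuclideanDomain.gcdA Q (pD D Q) * C g.leadingCoeff⁻¹ * Q₁ +
      EuclideanDomain.gcdB Q (pD D Q) * C g.leadingCoeff⁻¹ * pD D Q₁) := by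
    calc Q₀ = g * C g.leadingCoeff⁻¹ := rfl
      _ = (Q * EuclideanDomain.gcdA Q (pD D Q) + pD D Q * EuclideanDomain.gcdB Q (pD D Q)) *
          C g.leadingCoeff⁻¹ := by rw [← hbez]
      _ = (Q₀ * Q₁ * EuclideanDomain.gcdA Q (pD D Q) +
          Q₀ * pD D Q₁ * EuclideanDomain.gcdB Q (pD D Q)) * C g.leadingCoeff⁻¹ := by
          conv_lhs => rw [hD]
          rw [← hQ₁, ← hD]
      _ = _ := by ring
  have h2 : Q₀ * 1 = Q₀ * (EuclideanDomain.gcdA Q (pD D Q) * C g.leadingCoeff⁻¹ * Q₁ +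
      EuclideanDomain.gcdB Q (pD D Q) * C g.leadingCoeff⁻¹ * pD D Q₁) := by
    rw [mul_one]; exact h1
  exact (mul_left_cancel₀ hm₀.ne_zero h2).symm

end PD

end PGH.PT
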