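import Mathlib
import Pool.Agent.Helper97_PGH.Local
import Pool.Agent.Helper11_PGH.PolyD

/-! # Resultants and values at constants -/

open Polynomial

namespace PGH.PT

section Vand

variable {E : Type*} [Field E]

theorem sum_shift (g : E[X]) {d : ℕ} (hg : g.natDegree ≤ d) (x : E) (j : Fin d) :
    ∑ i : Fin (d + d), x ^ (i : ℕ) *
      (if (i : ℕ) ∈ Set.Icc (j : ℕ) (j + d) then g.coeff (i - j) else 0) =
      x ^ (j : ℕ) * g.eval x := by
  classical
  rw [Fin.sum_univ_eq_sum_range (fun i => x ^ i *
    (if i ∈ Set.Icc (j : ℕ) (j + d) then g.coeff (i - j) else 0)) (d + d)]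
  have h1 : Finset.Ico (j : ℕ) (j + (d + 1)) ⊆ Finset.range (d + d) := by
    intro i hi
    rw [Finset.mem_Ico] at hi
    rw [Finset.mem_range]
    have := j.2
    omega
  rw [← Finset.sum_subset h1]
  · rw [Finset.sum_Ico_eq_sum_range, eval_eq_sum_range' (lt_of_le_of_lt hg (Nat.lt_succ_self d)),
      Finset.mul_sum]
    have h2 : (j : ℕ) + (d + 1) - j = d + 1 := by omega
    rw [h2]
    apply Finset.sum_congr rfl
    intro i hi
    rw [Finset.mem_range] at hi
    rw [if_pos, Nat.add_sub_cancel_left, pow_add]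
    · ring
    · rw [Set.mem_Icc]; omega
  · intro i _ hi
    rw [Finset.mem_Ico] at hi
    rw [if_neg, mul_zero]
    rw [Set.mem_Icc]
    omega

theorem vand_mul_sylvester (f g : E[X]) {d : ℕ} (hf : f.natDegree ≤ d) (hg : g.natDegree ≤ d)
    (x : Fin (d + d) → E) :
    Matrix.vandermonde x * sylvester f g d d = Matrix.of (fun s j => j.addCases
      (fun j₁ : Fin d => x s ^ (j₁ : ℕ) * g.eval (x s))
      (fun j₁ : Fin d => x s ^ (j₁ : ℕ) * f.eval (x s))) := by
  ext s j
  rw [Matrix.mul_apply, Matrix.of_apply]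
  refine Fin.addCases (fun j₁ => ?_) (fun j₁ => ?_) j
  · rw [Fin.addCases_left, ← sum_shift g hg (x s) j₁]
    apply Finset.sum_congr rfl
    intro i _
    rw [Matrix.vandermonde_apply, sylvester, Matrix.of_apply, Fin.addCases_left]
  · rw [Fin.addCases_right, ← sum_shift f hf (x s) j₁]
    apply Finset.sum_congr rfl
    intro i _
    rw [Matrix.vandermonde_apply, sylvester, Matrix.of_apply, Fin.addCases_right]

theorem resultant_ne_zero_of_coprime {f g : E[X]} (hf : f.Monic) {d : ℕ} (hd : f.natDegree = d)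
    (hg : g.natDegree ≤ d) (h : IsCoprime f g) : resultant f g d d ≠ 0 := by
  obtain ⟨k, hk⟩ := Nat.exists_eq_add_of_le hg
  have h1 := resultant_add_right_deg f g d g.natDegree k le_rfl
  rw [← hk] at h1
  rw [h1]
  have h2 : f.coeff d = 1 := by rw [← hd]; exact hf
  rw [h2, one_pow, one_mul, ← hd]
  exact resultant_ne_zero f g h

theorem resultant_scale (D : Derivation ℤ E E) (f : E[X]) (g : E) (hg : g ≠ 0) {d : ℕ}
    (hd : f.natDegree ≤ d) :
    resultant (C g * f) (pD D (C g * f)) d d = g ^ (2 * d) * resultant f (pD D f) d d := by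
  have h1 : pD D (C g * f) = C g * (pD D f + f * C (D g / g)) := by
    rw [(pD D).leibniz, pD_C, smul_eq_mul, smul_eq_mul, mul_add]
    have h2 : C g * (f * C (D g / g)) = f * C (D g) := by
      have h3 : C (D g) = C g * C (D g / g) := by
        rw [← C_mul, mul_div_cancel₀ _ hg]
      rw [h3]; ring
    rw [h2]
  rw [h1, resultant_C_mul_left, resultant_C_mul_right, resultant_add_mul_right _ _ _ _ _ _ hd]
  · rw [two_mul, pow_add]; ring
  · rw [natDegree_C, zero_add]

end Vand

section LocalRes

variable {L E : Type*} [Field L] [Field E] [Algebra L E] {P : Place L E} {D : Derivation ℤ E E}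

theorem ge_eval {f : E[X]} {n : ℤ} (hf : ∀ i, P.Ge n (f.coeff i)) (x : L) :
    P.Ge n (f.eval (algebraMap L E x)) := by
  rw [eval_eq_sum_range]
  apply Place.Ge.sum
  intro i _
  exact (hf i).mul' ((P.ge_const x).pow i) (by simp)

/-- local bound for the resultant of `f` and its coefficientwise derivative -/
theorem resultant_ge {f : E[X]} {d : ℕ} (hd : f.natDegree ≤ d) (x : Fin (d + d) → L)
    (hx : Function.Injective x) (hDx : ∀ s, D (algebraMap L E (x s)) = 0) (c : ℤ)
    (r : Fin (d + d) → ℤ) (h1 : ∀ s, P.Ge (r s) (f.eval (algebraMap L E (x s))))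
    (h2 : ∀ s, P.Ge (r s - c) (D (f.eval (algebraMap L E (x s))))) :
    P.Ge (∑ s, r s - d * c) (resultant f (pD D f) d d) := by
  classical
  have hV := vand_mul_sylvester f (pD D f) hd ((natDegree_pD_le D f).trans hd)
    (fun s => algebraMap L E (x s))
  have hdet := congrArg Matrix.det hV
  rw [Matrix.det_mul] at hdet
  have hvd : (Matrix.vandermonde (fun s => algebraMap L E (x s))).det =
      algebraMap L E (Matrix.vandermonde x).det := by
    rw [Matrix.det_vandermonde, Matrix.det_vandermonde, map_prod]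
    apply Finset.prod_congr rfl
    intro i _
    rw [map_prod]
    apply Finset.prod_congr rfl
    intro j _
    rw [map_sub]
  have hv0 : (Matrix.vandermonde x).det ≠ 0 := Matrix.det_vandermonde_ne_zero_iff.2 hx
  have hres : resultant f (pD D f) d d = algebraMap L E ((Matrix.vandermonde x).det)⁻¹ *
      (Matrix.of (fun (s j : Fin (d + d)) => j.addCases
      (fun j₁ : Fin d => (algebraMap L E (x s)) ^ (j₁ : ℕ) * (pD D f).eval (algebraMap L E (x s)))
      (fun j₁ : Fin d => (algebraMap L E (x s)) ^ (j₁ : ℕ) * f.eval (algebraMap L E (x s))))).det := by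
    rw [← hdet, hvd, ← mul_assoc, ← map_mul, inv_mul_cancel₀ hv0, map_one, one_mul]
    rfl
  rw [hres]
  refine (P.ge_const _).mul' (n := ∑ s, r s - d * c) ?_ (by omega)
  apply Place.Ge.det
  intro σ
  have h3 : ∑ s, r s - d * c =
      ∑ j : Fin (d + d), (r (σ j) - j.addCases (fun _ : Fin d => c) (fun _ : Fin d => (0 : ℤ))) := by
    have h4 : ∑ j : Fin (d + d), (j.addCases (fun _ : Fin d => c) (fun _ : Fin d => (0 : ℤ)) : ℤ) =
        d * c := by
      rw [Fin.sum_univ_add]
      simp only [Fin.addCases_left, Fin.addCases_right]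
      rw [Finset.sum_const, Finset.sum_const, Finset.card_univ, Fintype.card_fin]
      simp
    rw [Finset.sum_sub_distrib, Equiv.sum_comp σ r, h4]
  rw [h3]
  apply Place.Ge.prod
  intro j _
  rw [Matrix.of_apply]
  refine Fin.addCases (fun j₁ => ?_) (fun j₁ => ?_) j
  · rw [Fin.addCases_left, Fin.addCases_left]
    have h4 := h2 (σ (Fin.castAdd d j₁))
    rw [deriv_eval_const D f (hDx _)] at h4
    exact ((P.ge_const _).pow _).mul' h4 (by simp)
  · rw [Fin.addCases_right, Fin.addCases_right]
    exact ((P.ge_const _).pow _).mul' (h1 _) (by simp)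

end LocalRes

end PGH.PT
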