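import Mathlib
import Pool.Agent.Helper97_PGH.CoreTwo
import Pool.Agent.Helper11_PGH.Res

/-! # Local analysis of the values of a polynomial at constants -/

open Polynomial

namespace PGH.PT

section

variable {L E : Type*} [Field L] [Field E] [Algebra L E] (P : Place L E) {D : Derivation ℤ E E}

theorem exists_min_coeff {f : E[X]} (hf : f ≠ 0) :
    ∃ j, f.coeff j ≠ 0 ∧ ∀ i, P.Ge (P.ord (f.coeff j)) (f.coeff i) := by
  obtain ⟨j, hj, hmin⟩ := Finset.exists_min_image f.support (fun j => P.ord (f.coeff j))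
    (nonempty_support_iff.2 hf)
  refine ⟨j, mem_support_iff.1 hj, fun i => ?_⟩
  by_cases hi : f.coeff i = 0
  · rw [hi]; exact P.ge_zero _
  · rw [P.ge_iff hi]
    exact hmin i (mem_support_iff.2 hi)

/-- the normalised polynomial -/
theorem scaled {f : E[X]} {j : ℕ} (hj : f.coeff j ≠ 0)
    (hmin : ∀ i, P.Ge (P.ord (f.coeff j)) (f.coeff i)) (i : ℕ) :
    P.Ge 0 ((C (f.coeff j)⁻¹ * f).coeff i) := by
  rw [coeff_C_mul]
  refine Place.Ge.mul' (m := - P.ord (f.coeff j)) ?_ (hmin i) (by omega)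
  rw [P.ge_iff (inv_ne_zero hj), P.ord_inv]

theorem card_zero_le {f : E[X]} {j : ℕ} (hj : f.coeff j ≠ 0)
    (hmin : ∀ i, P.Ge (P.ord (f.coeff j)) (f.coeff i)) {N : ℕ} (a : Fin N → L)
    (ha : Function.Injective a) (hne : ∀ i, f.eval (algebraMap L E (a i)) ≠ 0) :
    (Finset.univ.filter (fun i => P.ord (f.coeff j) < P.ord (f.eval (algebraMap L E (a i))))).card ≤
      f.natDegree := by
  classical
  set g : E[X] := C (f.coeff j)⁻¹ * f with hg
  have hg0 : ∀ i, P.Ge 0 (g.coeff i) := scaled P hj hmin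
  have hgj : g.coeff j = 1 := by rw [hg, coeff_C_mul, inv_mul_cancel₀ hj]
  have hgd : g.natDegree ≤ f.natDegree := natDegree_C_mul_le _ _
  set q : L[X] := ∑ i ∈ Finset.range (f.natDegree + 1), monomial i (P.res (g.coeff i)) with hq
  have hqc : ∀ i ∈ Finset.range (f.natDegree + 1), q.coeff i = P.res (g.coeff i) := by
    intro i hi
    rw [hq, finsetSum_coeff]
    simp_rw [coeff_monomial]
    rw [Finset.sum_ite_eq' , if_pos hi]
  have hqd : q.natDegree ≤ f.natDegree := by
    rw [hq]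
    apply natDegree_sum_le_of_forall_le
    intro i hi
    rw [Finset.mem_range] at hi
    exact (natDegree_monomial_le _).trans (by omega)
  have hjd : j ≤ f.natDegree := le_natDegree_of_ne_zero hj
  have hq0 : q ≠ 0 := by
    intro h0
    have h1 := hqc j (Finset.mem_range.2 (by omega))
    rw [h0, coeff_zero, hgj] at h1
    have h2 : P.res (1 : E) = 1 := P.res_eq P.ge_one (by simp)
    rw [h2] at h1
    exact zero_ne_one h1
  have hroot : ∀ i ∈ Finset.univ.filter
      (fun i => P.ord (f.coeff j) < P.ord (f.eval (algebraMap L E (a i)))),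
      a i ∈ q.roots.toFinset := by
    intro i hi
    rw [Finset.mem_filter] at hi
    rw [Multiset.mem_toFinset, mem_roots hq0, IsRoot.def]
    have h1 : P.Ge 1 (g.eval (algebraMap L E (a i))) := by
      rw [hg, eval_mul, eval_C]
      refine Place.Ge.mul' (m := - P.ord (f.coeff j)) (n := P.ord (f.coeff j) + 1) ?_ ?_ (by omega)
      · rw [P.ge_iff (inv_ne_zero hj), P.ord_inv]
      · rw [P.ge_iff (hne i)]; omega
    have h2 : P.Ge 1 (g.eval (algebraMap L E (a i)) - algebraMap L E (q.eval (a i))) := by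
      rw [eval_eq_sum_range' (Nat.lt_succ_of_le hgd), eval_eq_sum_range' (Nat.lt_succ_of_le hqd),
        map_sum, ← Finset.sum_sub_distrib]
      apply Place.Ge.sum
      intro l hl
      rw [map_mul, map_pow, hqc l hl, ← sub_mul]
      exact (P.res_spec (hg0 l)).mul' ((P.ge_const _).pow l) (by simp)
    have h3 : P.Ge 1 (algebraMap L E (q.eval (a i))) := by
      have := h1.sub h2
      simpa using this
    by_contra h0
    exact P.not_ge_one_const h0 h3
  have h1 : (Finset.image a (Finset.univ.filter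
      (fun i => P.ord (f.coeff j) < P.ord (f.eval (algebraMap L E (a i)))))).card ≤
      q.roots.toFinset.card := by
    apply Finset.card_le_card
    intro x hx
    rw [Finset.mem_image] at hx
    obtain ⟨i, hi, rfl⟩ := hx
    exact hroot i hi
  rw [Finset.card_image_of_injective _ ha] at h1
  exact h1.trans ((Multiset.toFinset_card_le _).trans ((card_roots' q).trans hqd))

/-- the local inequality -/
theorem local_gen {f : E[X]} {j : ℕ} (hj : f.coeff j ≠ 0)
    (hmin : ∀ i, P.Ge (P.ord (f.coeff j)) (f.coeff i)) {N : ℕ} (a : Fin N → L)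
    (ha : Function.Injective a) (hDa : ∀ i, D (algebraMap L E (a i)) = 0)
    (hne : ∀ i, f.eval (algebraMap L E (a i)) ≠ 0) {d : ℕ} (hd : f.natDegree = d)
    (hdN : d + d ≤ N) (hρ : resultant f (pD D f) d d ≠ 0) (c : ℤ) (r : Fin N → ℤ)
    (hr0 : ∀ i, P.ord (f.eval (algebraMap L E (a i))) ≤ P.ord (f.coeff j) → r i = 0)
    (hr : ∀ i, r i ≤ P.ord (f.eval (algebraMap L E (a i))) - P.ord (f.coeff j))
    (hr2 : ∀ i, P.Ge (r i - c) (D ((C (f.coeff j)⁻¹ * f).eval (algebraMap L E (a i))))) :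
    2 * d * P.ord (f.coeff j) + ∑ i, r i - d * c ≤ P.ord (resultant f (pD D f) d d) := by
  classical
  set g : E[X] := C (f.coeff j)⁻¹ * f with hg
  have hfg : f = C (f.coeff j) * g := by
    rw [hg, ← mul_assoc, ← C_mul, mul_inv_cancel₀ hj, C_1, one_mul]
  have hgd : g.natDegree ≤ d := by rw [← hd]; exact natDegree_C_mul_le _ _
  have hcard := card_zero_le P hj hmin a ha hne
  rw [hd] at hcard
  obtain ⟨S, hS1, -, hS2⟩ := Finset.exists_subsuperset_card_eq
    (Finset.subset_univ (Finset.univ.filter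
      (fun i => P.ord (f.coeff j) < P.ord (f.eval (algebraMap L E (a i))))))
    (hcard.trans (Nat.le_add_right d d)) (by rw [Finset.card_univ, Fintype.card_fin]; exact hdN)
  set x : Fin (d + d) → Fin N := fun s => S.orderEmbOfFin hS2 s with hx
  have hxinj : Function.Injective x := (S.orderEmbOfFin hS2).injective
  have hsum : ∑ s, r (x s) = ∑ i, r i := by
    have h1 : ∑ i ∈ S, r i = ∑ i, r i := by
      apply Finset.sum_subset (Finset.subset_univ _)
      intro i _ hi
      apply hr0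
      by_contra hlt
      push Not at hlt
      exact hi (hS1 (Finset.mem_filter.2 ⟨Finset.mem_univ _, hlt⟩))
    rw [← h1, ← Finset.map_orderEmbOfFin_univ S hS2, Finset.sum_map]
    rfl
  have h1 := resultant_ge (P := P) (D := D) hgd (fun s => a (x s)) (ha.comp hxinj)
    (fun s => hDa _) c (fun s => r (x s)) (by
      intro s
      rw [hg, eval_mul, eval_C]
      refine Place.Ge.mul' (m := - P.ord (f.coeff j)) (n := P.ord (f.coeff j) + r (x s)) ?_ ?_
        (by omega)
      · rw [P.ge_iff (inv_ne_zero hj), P.ord_inv]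
      · rw [P.ge_iff (hne _)]
        have := hr (x s)
        omega) (fun s => hr2 (x s))
  rw [hsum] at h1
  have h2 : resultant f (pD D f) d d = (f.coeff j) ^ (2 * d) * resultant g (pD D g) d d := by
    conv_lhs => rw [hfg]
    exact resultant_scale D g _ hj hgd
  have h3 : P.Ge (2 * d * P.ord (f.coeff j)) ((f.coeff j) ^ (2 * d)) := by
    rw [P.ge_iff (pow_ne_zero _ hj), P.ord_pow]
    push_cast
    exact le_rfl
  rw [← P.ge_iff hρ, h2]
  exact h3.mul' h1 (by omega)

/-- places where the derivation has a pole of order at most `c` -/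
theorem local_pole {f : E[X]} {j : ℕ} (hj : f.coeff j ≠ 0)
    (hmin : ∀ i, P.Ge (P.ord (f.coeff j)) (f.coeff i)) {N : ℕ} (a : Fin N → L)
    (ha : Function.Injective a) (hDa : ∀ i, D (algebraMap L E (a i)) = 0)
    (hne : ∀ i, f.eval (algebraMap L E (a i)) ≠ 0) {d : ℕ} (hd : f.natDegree = d)
    (hdN : d + d ≤ N) (hρ : resultant f (pD D f) d d ≠ 0) (c : ℕ) (hc : DGe P D (-(c : ℤ))) :
    2 * d * P.ord (f.coeff j) +
      ∑ i, max 0 (P.ord (f.eval (algebraMap L E (a i))) - P.ord (f.coeff j) - 1) - d * c ≤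
      P.ord (resultant f (pD D f) d d) := by
  have hge : ∀ i, P.Ge (P.ord (f.coeff j)) (f.eval (algebraMap L E (a i))) := fun i => ge_eval hmin _
  have hmu : ∀ i, P.ord (f.coeff j) ≤ P.ord (f.eval (algebraMap L E (a i))) := fun i =>
    (P.ge_iff (hne i)).1 (hge i)
  apply local_gen P hj hmin a ha hDa hne hd hdN hρ
  · intro i hi
    rw [max_eq_left]
    omega
  · intro i
    have := hmu i
    omega
  · intro i
    have h1 : P.Ge (P.ord (f.eval (algebraMap L E (a i))) - P.ord (f.coeff j))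
        ((C (f.coeff j)⁻¹ * f).eval (algebraMap L E (a i))) := by
      rw [eval_mul, eval_C]
      refine Place.Ge.mul' (m := - P.ord (f.coeff j)) ?_ P.ge_ord (by omega)
      rw [P.ge_iff (inv_ne_zero hj), P.ord_inv]
    have h2 := hc.ge h1
    have h3 : P.Ge (-(c : ℤ)) (D ((C (f.coeff j)⁻¹ * f).eval (algebraMap L E (a i)))) :=
      hc _ (h1.mono (by have := hmu i; omega))
    rcases le_total 0 (P.ord (f.eval (algebraMap L E (a i))) - P.ord (f.coeff j) - 1) with h | h
    · rw [max_eq_right h]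
      exact h2.mono (by omega)
    · rw [max_eq_left h]
      exact h3.mono (by omega)

/-- static places -/
theorem local_static {f : E[X]} {j : ℕ} (hj : f.coeff j ≠ 0)
    (hmin : ∀ i, P.Ge (P.ord (f.coeff j)) (f.coeff i)) {N : ℕ} (a : Fin N → L)
    (ha : Function.Injective a) (hDa : ∀ i, D (algebraMap L E (a i)) = 0)
    (hne : ∀ i, f.eval (algebraMap L E (a i)) ≠ 0) {d : ℕ} (hd : f.natDegree = d)
    (hdN : d + d ≤ N) (hρ : resultant f (pD D f) d d ≠ 0) (hc : DGe P D 0)
    (hs : ∀ y, P.Ge 1 y → P.Ge 1 (D y)) :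
    2 * d * P.ord (f.coeff j) +
      ∑ i, (P.ord (f.eval (algebraMap L E (a i))) - P.ord (f.coeff j)) ≤
      P.ord (resultant f (pD D f) d d) := by
  have hge : ∀ i, P.Ge (P.ord (f.coeff j)) (f.eval (algebraMap L E (a i))) := fun i => ge_eval hmin _
  have hmu : ∀ i, P.ord (f.coeff j) ≤ P.ord (f.eval (algebraMap L E (a i))) := fun i =>
    (P.ge_iff (hne i)).1 (hge i)
  have h := local_gen P hj hmin a ha hDa hne hd hdN hρ 0
    (fun i => P.ord (f.eval (algebraMap L E (a i))) - P.ord (f.coeff j)) ?_ ?_ ?_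
  · linarith
  · intro i hi
    have := hmu i
    omega
  · intro i
    exact le_rfl
  · intro i
    have h1 : P.Ge (P.ord (f.eval (algebraMap L E (a i))) - P.ord (f.coeff j))
        ((C (f.coeff j)⁻¹ * f).eval (algebraMap L E (a i))) := by
      rw [eval_mul, eval_C]
      refine Place.Ge.mul' (m := - P.ord (f.coeff j)) ?_ P.ge_ord (by omega)
      rw [P.ge_iff (inv_ne_zero hj), P.ord_inv]
    rw [sub_zero]
    exact hc.ge_static hs h1

/-- divisibility of the contact orders -/
theorem local_dvd {f f₀ : E[X]} {j : ℕ} (hj : f.coeff j ≠ 0)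
    (hmin : ∀ i, P.Ge (P.ord (f.coeff j)) (f.coeff i)) {N : ℕ} (a : Fin N → L)
    (ha : Function.Injective a) (hDa : ∀ i, D (algebraMap L E (a i)) = 0)
    (hne : ∀ i, f.eval (algebraMap L E (a i)) ≠ 0)
    (hne₀ : ∀ i, f₀.eval (algebraMap L E (a i)) ≠ 0) (hf₀ : pD D f₀ = 0)
    (hdN : f.natDegree < N) (hcst : ∀ z, z ≠ 0 → D z = 0 → P.ord z = 0)
    (m : ℕ) (υ : E) (β ζ : Fin N → E)
    (hval : ∀ i, (f₀ * f).eval (algebraMap L E (a i)) = υ * β i * ζ i ^ m)
    (hβ : ∀ i, P.ord (β i) = 0) (i : Fin N) :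
    (m : ℤ) ∣ P.ord (f.eval (algebraMap L E (a i))) - P.ord (f.coeff j) := by
  classical
  have hge : ∀ i, P.Ge (P.ord (f.coeff j)) (f.eval (algebraMap L E (a i))) := fun i => ge_eval hmin _
  have hmu : ∀ i, P.ord (f.coeff j) ≤ P.ord (f.eval (algebraMap L E (a i))) := fun i =>
    (P.ge_iff (hne i)).1 (hge i)
  have hex : ∃ i₁, P.ord (f.eval (algebraMap L E (a i₁))) = P.ord (f.coeff j) := by
    by_contra hcon
    push Not at hcon
    have h1 := card_zero_le P hj hmin a ha hne
    have h2 : (Finset.univ.filter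
        (fun i => P.ord (f.coeff j) < P.ord (f.eval (algebraMap L E (a i))))) = Finset.univ := by
      ext i
      rw [Finset.mem_filter]
      refine ⟨fun h => h.1, fun h => ⟨h, lt_of_le_of_ne (hmu i) (Ne.symm (hcon i))⟩⟩
    rw [h2, Finset.card_univ, Fintype.card_fin] at h1
    omega
  obtain ⟨i₁, hi₁⟩ := hex
  have hord : ∀ i, P.ord (f.eval (algebraMap L E (a i))) = P.ord υ + m * P.ord (ζ i) := by
    intro i
    have h0 : P.ord (f₀.eval (algebraMap L E (a i))) = 0 := by
      apply hcst _ (hne₀ i)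
      rw [deriv_eval_const D f₀ (hDa i), hf₀, eval_zero]
    have h1 := hval i
    have hne' : υ * β i * ζ i ^ m ≠ 0 := by
      rw [← h1, eval_mul]; exact mul_ne_zero (hne₀ i) (hne i)
    have h2 : υ ≠ 0 := fun h => hne' (by rw [h]; ring)
    have h3 : β i ≠ 0 := fun h => hne' (by rw [h]; ring)
    have h4 : ζ i ^ m ≠ 0 := fun h => hne' (by rw [h]; ring)
    have h5 := congrArg P.ord h1
    rw [eval_mul, P.ord_mul (hne₀ i) (hne i), P.ord_mul (mul_ne_zero h2 h3) h4,
      P.ord_mul h2 h3, P.ord_pow, h0, hβ i] at h5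
    omega
  rw [← hi₁, hord, hord]
  refine ⟨P.ord (ζ i) - P.ord (ζ i₁), ?_⟩
  ring

end

theorem trunc_dvd {m : ℕ} {μ : ℤ} (hm : 1 ≤ m) (h0 : 0 ≤ μ) (h : (m : ℤ) ∣ μ) :
    ((m : ℤ) - 1) * μ ≤ m * max 0 (μ - 1) := by
  obtain ⟨t, rfl⟩ := h
  have hm' : (1 : ℤ) ≤ m := by exact_mod_cast hm
  rcases eq_or_lt_of_le h0 with h1 | h1
  · rw [← h1]; simp
  · have ht : 1 ≤ t := by
      by_contra hneg
      push Not at hneg
      have : (m : ℤ) * t ≤ 0 := mul_nonpos_of_nonneg_of_nonpos (by omega) (by omega)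
      omega
    have h2 : (m : ℤ) * ((m : ℤ) * t - 1) ≤ m * max 0 ((m : ℤ) * t - 1) :=
      mul_le_mul_of_nonneg_left (le_max_right _ _) (by omega)
    nlinarith

theorem trunc_any {m : ℕ} {μ : ℤ} (h0 : 0 ≤ μ) :
    ((m : ℤ) - 1) * μ - m ≤ m * max 0 (μ - 1) := by
  have h2 : (m : ℤ) * (μ - 1) ≤ m * max 0 (μ - 1) :=
    mul_le_mul_of_nonneg_left (le_max_right _ _) (by positivity)
  nlinarith

end PGH.PT
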