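import Mathlib
import Pool.Agent.Helper11_PGH.LocalP

/-! # Global inequalities for the values of a polynomial at constants -/

open Polynomial

namespace PGH.PT

section

variable {L E : Type*} [Field L] [Field E] [Algebra L E] [IsAlgClosed L] [CharZero L] [FF L E]
  {D : Derivation ℤ E E}

open Classical in
/-- the counting inequality -/
theorem count_poly {f : E[X]} (hf : f.Monic) {N d m : ℕ} (a : Fin N → L)
    (J : Place L E → ℕ)
    (hJmin : ∀ P : Place L E, ∀ i, P.Ge (P.ord (f.coeff (J P))) (f.coeff i))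
    (ρ : E) (δ : Place L E → ℤ) (hδ : ∀ P, 0 ≤ δ P)
    (sδ : Finset (Place L E)) (hsδ : ∀ P ∉ sδ, δ P = 0)
    (h : ∀ P : Place L E, (m : ℤ) * (2 * d * P.ord (f.coeff (J P))) + ((m : ℤ) - 1) *
      ∑ i, (P.ord (f.eval (algebraMap L E (a i))) - P.ord (f.coeff (J P))) - δ P ≤ m * P.ord ρ) :
    ∃ s : Finset (Place L E), (∀ P ∉ s, ∀ i, f.coeff i ≠ 0 → P.ord (f.coeff i) = 0) ∧
      (∀ P : Place L E, P.ord (f.coeff (J P)) ≤ 0) ∧
      (- ∑ P ∈ s, P.ord (f.coeff (J P))) * (N * ((m : ℤ) - 1) - 2 * d * m) ≤ ∑ P ∈ sδ, δ P := by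
  have hle : ∀ P : Place L E, P.ord (f.coeff (J P)) ≤ 0 := by
    intro P
    have h1 := hJmin P f.natDegree
    rw [hf.coeff_natDegree, P.ge_iff one_ne_zero, P.ord_one] at h1
    exact h1
  have hsup := fun z : E => exists_support (L := L) z
  choose S hS using hsup
  set s := (f.support.biUnion (fun i => S (f.coeff i)) ∪
    Finset.univ.biUnion (fun i : Fin N => S (f.eval (algebraMap L E (a i))))) ∪ S ρ with hs
  have hs1 : ∀ P ∉ s, ∀ i, f.coeff i ≠ 0 → P.ord (f.coeff i) = 0 := by
    intro P hP i hi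
    by_contra h0
    apply hP
    rw [hs, Finset.mem_union, Finset.mem_union]
    left; left
    rw [Finset.mem_biUnion]
    exact ⟨i, mem_support_iff.2 hi, (hS _ P).2 h0⟩
  have hs2 : ∀ P ∉ s, ∀ i, P.ord (f.eval (algebraMap L E (a i))) = 0 := by
    intro P hP i
    by_contra h0
    apply hP
    rw [hs, Finset.mem_union, Finset.mem_union]
    left; right
    rw [Finset.mem_biUnion]
    exact ⟨i, Finset.mem_univ _, (hS _ P).2 h0⟩
  have hs3 : ∀ P ∉ s, P.ord ρ = 0 := by
    intro P hP
    by_contra h0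
    apply hP
    rw [hs, Finset.mem_union]
    right
    exact (hS _ P).2 h0
  refine ⟨s, hs1, hle, ?_⟩
  have h1 : ∑ P ∈ s, P.ord ρ = 0 := sum_ord_eq_zero ρ s hs3
  have h2 : ∀ i, ∑ P ∈ s, P.ord (f.eval (algebraMap L E (a i))) = 0 := fun i =>
    sum_ord_eq_zero _ s (fun P hP => hs2 P hP i)
  have h3 := Finset.sum_le_sum (fun P (_ : P ∈ s) => h P)
  rw [← Finset.mul_sum, h1, mul_zero, Finset.sum_sub_distrib, Finset.sum_add_distrib,
    ← Finset.mul_sum, ← Finset.mul_sum, ← Finset.mul_sum, Finset.sum_comm] at h3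
  simp_rw [Finset.sum_sub_distrib, h2] at h3
  rw [Finset.sum_const_zero, Finset.sum_const, Finset.card_univ, Fintype.card_fin, nsmul_eq_mul,
    zero_sub] at h3
  have h4 : ∑ P ∈ s, δ P ≤ ∑ P ∈ sδ, δ P := by
    calc ∑ P ∈ s, δ P ≤ ∑ P ∈ s ∪ sδ, δ P :=
          Finset.sum_le_sum_of_subset_of_nonneg Finset.subset_union_left (fun P _ _ => hδ P)
      _ = ∑ P ∈ sδ, δ P := by
          symm
          exact Finset.sum_subset Finset.subset_union_right (fun P _ hP => hsδ P hP)
  linarith

/-- bounded heights -/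
theorem poly_height (hconst : ∀ z, D z = 0 → ∃ c : L, algebraMap L E c = z)
    (cp : Place L E → ℕ) (sc : Finset (Place L E)) (hsc : ∀ P ∉ sc, cp P = 0)
    (hcp : ∀ P, DGe P D (-(cp P : ℤ))) {Q : E[X]} (hQ : Q.Monic) (hsep : Q.Separable)
    {n N m : ℕ} (hn : Q.natDegree ≤ n) (hN : 2 * n * m < N * (m - 1)) (a : Fin N → L)
    (ha : Function.Injective a) (hDa : ∀ i, D (algebraMap L E (a i)) = 0)
    (υ : E) (β ζ : Fin N → E)
    (hval : ∀ i, Q.eval (algebraMap L E (a i)) = υ * β i * ζ i ^ m)
    (hne : ∀ i, Q.eval (algebraMap L E (a i)) ≠ 0) (B : ℕ) (hB : ∀ i, ht L (β i) ≤ B) (l : ℕ) :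
    ht L (Q.coeff l) ≤ m * (n * ∑ P ∈ sc, cp P + N * (N * (2 * B))) := by
  classical
  obtain ⟨f₀, f, hQf, hf₀, hf, hD₀, hcop⟩ := exists_split D hQ hsep
  set d := f.natDegree with hd
  have hdn : d ≤ n := by
    refine le_trans ?_ hn
    rw [hQf, hf₀.natDegree_mul hf]
    omega
  have hm : 1 ≤ m := by
    rcases Nat.eq_zero_or_pos m with h | h
    · subst h; simp at hN
    · exact h
  have hNn : 2 * n < N := by
    by_contra hcon
    push Not at hcon
    have h1 : N * (m - 1) ≤ 2 * n * m := Nat.mul_le_mul hcon (by omega)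
    omega
  have hdd : d + d ≤ N := by omega
  have hρ : resultant f (pD D f) d d ≠ 0 :=
    resultant_ne_zero_of_coprime hf rfl (natDegree_pD_le D f) hcop
  have hne' : ∀ i, f.eval (algebraMap L E (a i)) ≠ 0 := by
    intro i h0
    apply hne i
    rw [hQf, eval_mul, h0, mul_zero]
  have hne₀ : ∀ i, f₀.eval (algebraMap L E (a i)) ≠ 0 := by
    intro i h0
    apply hne i
    rw [hQf, eval_mul, h0, zero_mul]
  choose J hJ hJmin using fun P : Place L E => exists_min_coeff P hf.ne_zero
  have hmu : ∀ (P : Place L E) (i), 0 ≤ P.ord (f.eval (algebraMap L E (a i))) - P.ord (f.coeff (J P)) := by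
    intro P i
    have h1 := (P.ge_iff (hne' i)).1 (ge_eval (hJmin P) (a i))
    omega
  -- bad places
  have hsup := fun z : E => exists_support (L := L) z
  choose S hS using hsup
  set bad : Finset (Place L E) := Finset.univ.biUnion (fun i => S (β i)) with hbad
  have hbadcard : bad.card ≤ N * (2 * B) := by
    calc bad.card ≤ ∑ i : Fin N, (S (β i)).card := Finset.card_biUnion_le
      _ ≤ ∑ _i : Fin N, 2 * B := by
          apply Finset.sum_le_sum
          intro i _
          exact (card_support_le _ _ (fun P hP => (hS _ P).1 hP)).trans (by have := hB i; omega)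
      _ = _ := by rw [Finset.sum_const, Finset.card_univ, Fintype.card_fin, smul_eq_mul]
  have hnbad : ∀ P ∉ bad, ∀ i, P.ord (β i) = 0 := by
    intro P hP i
    by_contra h0
    apply hP
    rw [hbad, Finset.mem_biUnion]
    exact ⟨i, Finset.mem_univ _, (hS _ P).2 h0⟩
  set δ : Place L E → ℤ := fun P => (m : ℤ) * (d * cp P) + (if P ∈ bad then (N : ℤ) * m else 0)
    with hδdef
  have hδ : ∀ P, 0 ≤ δ P := by
    intro P
    rw [hδdef]
    simp only
    split_ifs <;> positivity
  have hsδ : ∀ P ∉ sc ∪ bad, δ P = 0 := by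
    intro P hP
    rw [Finset.mem_union, not_or] at hP
    rw [hδdef]
    simp only
    rw [hsc P hP.1, if_neg hP.2]
    simp
  obtain ⟨s, hs1, hs2, hs3⟩ := count_poly (d := d) (m := m) hf a J hJmin
    (resultant f (pD D f) d d) δ hδ (sc ∪ bad) hsδ (by
    intro P
    have h1 := local_pole P (hJ P) (hJmin P) a ha hDa hne' rfl hdd hρ (cp P) (hcp P)
    have h2 : ((m : ℤ) - 1) *
        ∑ i, (P.ord (f.eval (algebraMap L E (a i))) - P.ord (f.coeff (J P))) -
        (if P ∈ bad then (N : ℤ) * m else 0) ≤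
        m * ∑ i, max 0 (P.ord (f.eval (algebraMap L E (a i))) - P.ord (f.coeff (J P)) - 1) := by
      rw [Finset.mul_sum, Finset.mul_sum]
      by_cases hP : P ∈ bad
      · rw [if_pos hP]
        have h3 : ∑ i : Fin N, (((m : ℤ) - 1) *
            (P.ord (f.eval (algebraMap L E (a i))) - P.ord (f.coeff (J P))) - m) ≤
            ∑ i, (m : ℤ) * max 0
              (P.ord (f.eval (algebraMap L E (a i))) - P.ord (f.coeff (J P)) - 1) :=
          Finset.sum_le_sum (fun i _ => trunc_any (hmu P i))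
        rw [Finset.sum_sub_distrib, Finset.sum_const, Finset.card_univ, Fintype.card_fin,
          nsmul_eq_mul] at h3
        exact h3
      · rw [if_neg hP, sub_zero]
        apply Finset.sum_le_sum
        intro i _
        apply trunc_dvd hm (hmu P i)
        refine local_dvd P (hJ P) (hJmin P) a ha hDa hne' hne₀ hD₀ (by omega) ?_ m υ β ζ ?_
          (hnbad P hP) i
        · intro z _ hz
          obtain ⟨c, rfl⟩ := hconst z hz
          exact P.ord_const c
        · intro i
          rw [← hQf]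
          exact hval i
    have hm0 : (0 : ℤ) ≤ m := by positivity
    have h3 := mul_le_mul_of_nonneg_left h1 hm0
    have h4 : (m : ℤ) * (2 * d * P.ord (f.coeff (J P))) + ((m : ℤ) - 1) *
        ∑ i, (P.ord (f.eval (algebraMap L E (a i))) - P.ord (f.coeff (J P))) - δ P ≤
        m * (2 * d * P.ord (f.coeff (J P)) +
          ∑ i, max 0 (P.ord (f.eval (algebraMap L E (a i))) - P.ord (f.coeff (J P)) - 1) -
            d * cp P) := by
      rw [hδdef]
      simp only
      linarith
    exact h4.trans h3)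
  set H : ℤ := - ∑ P ∈ s, P.ord (f.coeff (J P)) with hH
  have hH0 : 0 ≤ H := by
    rw [hH, Left.nonneg_neg_iff]
    exact Finset.sum_nonpos (fun P _ => hs2 P)
  have hfac : (1 : ℤ) ≤ N * ((m : ℤ) - 1) - 2 * d * m := by
    have h1 : (2 * n * m : ℤ) + 1 ≤ N * ((m : ℤ) - 1) := by
      have h2 : ((m - 1 : ℕ) : ℤ) = (m : ℤ) - 1 := by push_cast [hm]; rfl
      rw [← h2]
      exact_mod_cast hN
    have h3 : (2 * d * m : ℤ) ≤ 2 * n * m := by
      have : (d : ℤ) ≤ n := by exact_mod_cast hdn
      have hm0 : (0 : ℤ) ≤ m := by positivity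
      nlinarith
    linarith
  have hδsum : ∑ P ∈ sc ∪ bad, δ P ≤ ((m * (n * ∑ P ∈ sc, cp P + N * (N * (2 * B))) : ℕ) : ℤ) := by
    rw [hδdef, Finset.sum_add_distrib]
    have h1 : ∑ P ∈ sc ∪ bad, (m : ℤ) * (d * cp P) ≤ m * (n * ∑ P ∈ sc, (cp P : ℤ)) := by
      rw [← Finset.mul_sum, ← Finset.mul_sum]
      apply mul_le_mul_of_nonneg_left _ (by positivity)
      have h2 : ∑ P ∈ sc ∪ bad, (cp P : ℤ) = ∑ P ∈ sc, (cp P : ℤ) := by
        symm
        apply Finset.sum_subset Finset.subset_union_left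
        intro P _ hP
        rw [hsc P hP]; rfl
      rw [h2]
      apply mul_le_mul_of_nonneg_right _ (by positivity)
      exact_mod_cast hdn
    have h2 : ∑ P ∈ sc ∪ bad, (if P ∈ bad then (N : ℤ) * m else 0) ≤
        m * (N * (N * (2 * B))) := by
      rw [Finset.sum_ite_mem]
      have h3 : (sc ∪ bad) ∩ bad = bad := by
        ext P
        simp only [Finset.mem_inter, Finset.mem_union]
        tauto
      rw [h3, Finset.sum_const, nsmul_eq_mul]
      have h4 : (bad.card : ℤ) ≤ N * (2 * B) := by exact_mod_cast hbadcard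
      calc (bad.card : ℤ) * (N * m) ≤ (N * (2 * B)) * (N * m) :=
            mul_le_mul_of_nonneg_right h4 (by positivity)
        _ = _ := by ring
    push_cast
    linarith
  have hHB : H ≤ ((m * (n * ∑ P ∈ sc, cp P + N * (N * (2 * B))) : ℕ) : ℤ) := by
    refine le_trans ?_ (hs3.trans hδsum)
    nlinarith
  -- the coefficients of `Q`
  have hcoef : ∀ P : Place L E, P.Ge (P.ord (f.coeff (J P))) (Q.coeff l) := by
    intro P
    rw [hQf, coeff_mul]
    apply Place.Ge.sum
    intro p _
    have h1 : D (f₀.coeff p.1) = 0 := by rw [← coeff_pD, hD₀, coeff_zero]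
    obtain ⟨c, hc⟩ := hconst _ h1
    rw [← hc]
    exact (P.ge_const c).mul' (hJmin P _) (by omega)
  by_cases hl : Q.coeff l = 0
  · rw [hl, ← map_zero (algebraMap L E), ht_const]
    exact Nat.zero_le _
  · have h1 : (ht L (Q.coeff l) : ℤ) ≤ H := by
      rw [← sum_poles_eq (L := L) (Q.coeff l) (s ∪ S (Q.coeff l)) (fun P hP => by
        by_contra h0
        exact hP (Finset.mem_union_right _ ((hS _ P).2 h0)))]
      have h2 : H = ∑ P ∈ s ∪ S (Q.coeff l), - P.ord (f.coeff (J P)) := by
        rw [hH, ← Finset.sum_neg_distrib]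
        apply Finset.sum_subset Finset.subset_union_left
        intro P _ hP
        rw [hs1 P hP _ (hJ P), neg_zero]
      rw [h2]
      apply Finset.sum_le_sum
      intro P _
      have h3 := (P.ge_iff hl).1 (hcoef P)
      have h4 := hs2 P
      omega
    exact_mod_cast h1.trans hHB

/-- rigidity -/
theorem poly_rigid {k : Type*} [Field k] [IsAlgClosed k] [Algebra k L] [Algebra k E]
    [IsScalarTower k L E]
    (hDk : ∀ c : k, D (algebraMap k E c) = 0)
    (hD0 : ∀ P : Place L E, DGe P D 0) {Q : E[X]} (hQ : Q.Monic) (hsep : Q.Separable)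
    {n N m : ℕ} (hn : Q.natDegree ≤ n) (hN : 2 * n * m < N * (m - 1)) (a : Fin N → L)
    (ha : Function.Injective a) (hDa : ∀ i, D (algebraMap L E (a i)) = 0)
    (υ : E) (β ζ : Fin N → E)
    (hval : ∀ i, Q.eval (algebraMap L E (a i)) = υ * β i * ζ i ^ m)
    (hne : ∀ i, Q.eval (algebraMap L E (a i)) ≠ 0) (hβ : ∀ i, D (β i) = 0)
    (P₀ : Place L E) (κ : ℕ → k) (hκ : ∀ i, P₀.Ge 1 (Q.coeff i - algebraMap k E (κ i))) (l : ℕ) :
    D (Q.coeff l) = 0 := by
  classical
  obtain ⟨f₀, f, hQf, hf₀, hf, hD₀, hcop⟩ := exists_split D hQ hsep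
  set d := f.natDegree with hd
  have hdn : d ≤ n := by
    refine le_trans ?_ hn
    rw [hQf, hf₀.natDegree_mul hf]
    omega
  have hm : 1 ≤ m := by
    rcases Nat.eq_zero_or_pos m with h | h
    · subst h; simp at hN
    · exact h
  have hNn : 2 * n < N := by
    by_contra hcon
    push Not at hcon
    have h1 : N * (m - 1) ≤ 2 * n * m := Nat.mul_le_mul hcon (by omega)
    omega
  have hdd : d + d ≤ N := by omega
  have hρ : resultant f (pD D f) d d ≠ 0 :=
    resultant_ne_zero_of_coprime hf rfl (natDegree_pD_le D f) hcop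
  have hne' : ∀ i, f.eval (algebraMap L E (a i)) ≠ 0 := by
    intro i h0
    apply hne i
    rw [hQf, eval_mul, h0, mul_zero]
  have hne₀ : ∀ i, f₀.eval (algebraMap L E (a i)) ≠ 0 := by
    intro i h0
    apply hne i
    rw [hQf, eval_mul, h0, zero_mul]
  have hβ0 : ∀ i, β i ≠ 0 := by
    intro i h0
    apply hne i
    rw [hval i, h0]
    ring
  choose J hJ hJmin using fun P : Place L E => exists_min_coeff P hf.ne_zero
  have hmu : ∀ (P : Place L E) (i), 0 ≤ P.ord (f.eval (algebraMap L E (a i))) - P.ord (f.coeff (J P)) := by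
    intro P i
    have h1 := (P.ge_iff (hne' i)).1 (ge_eval (hJmin P) (a i))
    omega
  obtain ⟨s, hs1, hs2, hs3⟩ := count_poly (d := d) (m := m) hf a J hJmin
    (resultant f (pD D f) d d) (fun _ => 0) (fun _ => le_rfl) ∅ (fun _ _ => rfl) (by
    intro P
    rw [sub_zero]
    have hm0 : (0 : ℤ) ≤ m := by positivity
    by_cases hst : ∀ y, P.Ge 1 y → P.Ge 1 (D y)
    · have h1 := local_static P (hJ P) (hJmin P) a ha hDa hne' rfl hdd hρ (hD0 P) hst
      have h3 := mul_le_mul_of_nonneg_left h1 hm0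
      have h4 : 0 ≤ ∑ i, (P.ord (f.eval (algebraMap L E (a i))) - P.ord (f.coeff (J P))) :=
        Finset.sum_nonneg (fun i _ => hmu P i)
      rw [mul_add] at h3
      nlinarith
    · have h1 := local_pole P (hJ P) (hJmin P) a ha hDa hne' rfl hdd hρ 0 (by simpa using hD0 P)
      have h2 : ((m : ℤ) - 1) *
          ∑ i, (P.ord (f.eval (algebraMap L E (a i))) - P.ord (f.coeff (J P))) ≤
          m * ∑ i, max 0 (P.ord (f.eval (algebraMap L E (a i))) - P.ord (f.coeff (J P)) - 1) := by
        rw [Finset.mul_sum, Finset.mul_sum]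
        apply Finset.sum_le_sum
        intro i _
        apply trunc_dvd hm (hmu P i)
        refine local_dvd P (hJ P) (hJmin P) a ha hDa hne' hne₀ hD₀ (by omega) ?_ m υ β ζ ?_ ?_ i
        · intro z hz0 hz
          exact ord_zero_of_const (hD0 P) hst hz0 hz
        · intro i
          rw [← hQf]
          exact hval i
        · intro i
          exact ord_zero_of_const (hD0 P) hst (hβ0 i) (hβ i)
      have h3 := mul_le_mul_of_nonneg_left h1 hm0
      push_cast at h3
      linarith)
  have hfac : (1 : ℤ) ≤ N * ((m : ℤ) - 1) - 2 * d * m := by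
    have h1 : (2 * n * m : ℤ) + 1 ≤ N * ((m : ℤ) - 1) := by
      have h2 : ((m - 1 : ℕ) : ℤ) = (m : ℤ) - 1 := by push_cast [hm]; rfl
      rw [← h2]
      exact_mod_cast hN
    have h3 : (2 * d * m : ℤ) ≤ 2 * n * m := by
      have : (d : ℤ) ≤ n := by exact_mod_cast hdn
      have hm0 : (0 : ℤ) ≤ m := by positivity
      nlinarith
    linarith
  rw [Finset.sum_empty] at hs3
  have hH0 : 0 ≤ - ∑ P ∈ s, P.ord (f.coeff (J P)) := by
    rw [Left.nonneg_neg_iff]
    exact Finset.sum_nonpos (fun P _ => hs2 P)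
  have hH : ∑ P ∈ s, P.ord (f.coeff (J P)) = 0 := by nlinarith
  have hzero : ∀ P : Place L E, P.ord (f.coeff (J P)) = 0 := by
    intro P
    by_cases hP : P ∈ s
    · exact (Finset.sum_eq_zero_iff_of_nonpos (fun P _ => hs2 P)).1 hH P hP
    · exact hs1 P hP _ (hJ P)
  -- the coefficients of `f` are in `L`
  have hlift : ∀ i, ∃ c : L, algebraMap L E c = f.coeff i := by
    intro i
    apply const_of_ge_zero (L := L)
    intro P
    have h1 := hJmin P i
    rw [hzero P] at h1
    exact h1
  have hlifts : f ∈ lifts (algebraMap L E) := by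
    rw [lifts_iff_coeff_lifts]
    intro i
    obtain ⟨c, hc⟩ := hlift i
    exact ⟨c, hc⟩
  obtain ⟨g, hg⟩ := (mem_lifts _).1 hlifts
  -- the degree of `f` is zero
  have hd0 : d = 0 := by
    by_contra hd0
    have hgd : g.degree ≠ 0 := by
      intro h0
      apply hd0
      rw [hd, ← hg, natDegree_map]
      exact natDegree_eq_of_degree_eq_some h0
    obtain ⟨x, hx⟩ := IsAlgClosed.exists_root g hgd
    have hfx : f.eval (algebraMap L E x) = 0 := by
      rw [← hg, eval_map, eval₂_at_apply, hx, map_zero]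
    have hQx : Q.eval (algebraMap L E x) = 0 := by rw [hQf, eval_mul, hfx, mul_zero]
    -- the reduction
    set q : k[X] := ∑ i ∈ Finset.range (Q.natDegree + 1), monomial i (κ i) with hq
    have hqx : (q.map (algebraMap k L)).eval x = 0 := by
      have h1 : P₀.Ge 1 (Q.eval (algebraMap L E x) -
          algebraMap L E ((q.map (algebraMap k L)).eval x)) := by
        rw [hq, Polynomial.map_sum, eval_finsetSum, eval_eq_sum_range, map_sum,
          ← Finset.sum_sub_distrib]
        apply Place.Ge.sum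
        intro i _
        rw [map_monomial, eval_monomial, map_mul, map_pow, ← sub_mul,
          ← IsScalarTower.algebraMap_apply]
        exact (hκ i).mul' ((P₀.ge_const _).pow i) (by simp)
      rw [hQx, zero_sub] at h1
      have h2 := h1.neg
      rw [neg_neg] at h2
      by_contra h0
      exact P₀.not_ge_one_const h0 h2
    have hqc : q.coeff Q.natDegree = κ Q.natDegree := by
      rw [hq, finsetSum_coeff]
      simp_rw [coeff_monomial]
      rw [Finset.sum_ite_eq', if_pos (Finset.mem_range.2 (Nat.lt_succ_self _))]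
    have hq0 : q ≠ 0 := by
      intro h0
      rw [h0, coeff_zero] at hqc
      have h1 := hκ Q.natDegree
      rw [← hqc, map_zero, sub_zero, hQ.coeff_natDegree] at h1
      have h2 : P₀.Ge 1 (algebraMap L E 1) := by rw [map_one]; exact h1
      exact P₀.not_ge_one_const one_ne_zero h2
    have hxalg : IsAlgebraic k x := by
      refine ⟨q, hq0, ?_⟩
      rw [aeval_def, ← eval_map]
      exact hqx
    obtain ⟨c, hc⟩ := mem_range_of_isAlgebraic hxalg
    have hDx : D (algebraMap L E x) = 0 := by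
      rw [← hc, ← IsScalarTower.algebraMap_apply]
      exact hDk c
    have hDf : (pD D f).eval (algebraMap L E x) = 0 := by
      rw [← deriv_eval_const D f hDx, hfx, map_zero]
    obtain ⟨A, B, hAB⟩ := hcop
    have h1 := congrArg (eval (algebraMap L E x)) hAB
    rw [eval_add, eval_mul, eval_mul, hfx, hDf, mul_zero, mul_zero, add_zero, eval_one] at h1
    exact zero_ne_one h1
  have hf1 : f = 1 := eq_one_of_monic_natDegree_zero hf (by rw [← hd]; exact hd0)
  rw [hQf, hf1, mul_one, ← coeff_pD, hD₀, coeff_zero]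

end

end PGH.PT
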