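import Mathlib
import Pool.Agent.Helper1_PGH.Defs

/-!
# Definition of the polynomial steps
-/

namespace PGH

/-- A polynomial step from the subfield `F` to the subfield `F'` of `M`, relative to the field of
constants `K`: the field `F'` contains `F` and is algebraic over the field generated by `F` and the
ratios of the coefficients of a separable polynomial `P` of degree at most `n`, whose values at `N`
distinct constants `a i ∈ K` are nonzero and of the form `u * b i * z i ^ m` with `b i ∈ F`, where
`N * (m - 1) > 2 * n * m`. -/
structure PolyStep {M : Type*} [Field M] (K F F' : Subfield M) : Prop where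
  le : F ≤ F'
  step : ∃ (n N m : ℕ) (P : Polynomial M) (u : M) (a b z : Fin N → M),
    2 * n * m < N * (m - 1) ∧ P.natDegree ≤ n ∧ P.Separable ∧ Function.Injective a ∧
    (∀ i, a i ∈ K ∧ b i ∈ F ∧ P.eval (a i) ≠ 0 ∧ P.eval (a i) = u * b i * z i ^ m) ∧
    ∀ w ∈ F', IsAlgebraic
      (Subfield.closure ((F : Set M) ∪ {w | ∃ i j, w = P.coeff i / P.coeff j})) w

end PGH
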