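import Mathlib
import Pool.Agent.Helper11_PGH.CoreP
import Pool.Agent.Helper11_PGH.PolyStep
import Pool.Agent.Helper97_PGH.Tower

/-! # The polynomial step -/

open Polynomial

universe u v

namespace PGH.PT

section PolyGood

variable {k : Type u} {M : Type v} [Field k] [Field M] [Algebra k M]

theorem exists_lift (R : Subalgebra k M) (P : M[X]) (h : ∀ i, P.coeff i ∈ R) :
    ∃ PR : R[X], PR.map (algebraMap R M) = P := by
  have h1 : P ∈ lifts (algebraMap R M) := by
    rw [lifts_iff_coeff_lifts]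
    intro i
    exact ⟨⟨_, h i⟩, rfl⟩
  exact (mem_lifts _).1 h1

/-- the lifted polynomial and its specialisations -/
theorem lift_data {n N m : ℕ} (P : M[X]) (hP : P.Monic) (A B : M[X])
    (hAB : A * P + B * derivative P = 1) (hn : P.natDegree ≤ n) (a : Fin N → k)
    (u : M) (b z : Fin N → M)
    (hval : ∀ i, P.eval (algebraMap k M (a i)) = u * b i * z i ^ m)
    (hne : ∀ i, P.eval (algebraMap k M (a i)) ≠ 0) (R : Subalgebra k M)
    (hPR : ∀ i, P.coeff i ∈ R) (hAR : ∀ i, A.coeff i ∈ R) (hBR : ∀ i, B.coeff i ∈ R)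
    (huR : u ∈ R) (hbR : ∀ i, b i ∈ R) (hzR : ∀ i, z i ∈ R)
    (hinv : ∀ i, (P.eval (algebraMap k M (a i)))⁻¹ ∈ R) :
    ∃ PR : R[X], (∀ i, (PR.coeff i : M) = P.coeff i) ∧
      ∀ {E : Type u} [Field E] [Algebra k E] (φ : R →ₐ[k] E),
        (PR.map (φ : R →+* E)).Monic ∧ (PR.map (φ : R →+* E)).Separable ∧
        (PR.map (φ : R →+* E)).natDegree ≤ n ∧
        (∀ i, (PR.map (φ : R →+* E)).coeff i = ev φ (P.coeff i)) ∧
        (∀ i, (PR.map (φ : R →+* E)).eval (algebraMap k E (a i)) =
          ev φ u * ev φ (b i) * ev φ (z i) ^ m) ∧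
        (∀ i, (PR.map (φ : R →+* E)).eval (algebraMap k E (a i)) ≠ 0) := by
  obtain ⟨PR, h1⟩ := exists_lift R P hPR
  obtain ⟨AR, h2⟩ := exists_lift R A hAR
  obtain ⟨BR, h3⟩ := exists_lift R B hBR
  have hinj : Function.Injective (algebraMap R M) := Subtype.val_injective
  have hcoe : ∀ i, (PR.coeff i : M) = P.coeff i := by
    intro i
    rw [← h1, coeff_map]
    rfl
  have hm : PR.Monic := monic_of_injective hinj (by rw [h1]; exact hP)
  have hsep : PR.Separable := by
    refine ⟨AR, BR, ?_⟩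
    apply map_injective _ hinj
    rw [Polynomial.map_add, Polynomial.map_mul, Polynomial.map_mul, ← derivative_map, h1, h2, h3,
      hAB, Polynomial.map_one]
  have hdeg : PR.natDegree = P.natDegree := by rw [← h1, hm.natDegree_map]
  refine ⟨PR, hcoe, ?_⟩
  intro E _ _ φ
  have hevalM : ∀ i, ((PR.eval (algebraMap k R (a i)) : R) : M) = P.eval (algebraMap k M (a i)) := by
    intro i
    rw [← h1, eval_map]
    change algebraMap R M _ = _
    rw [← eval₂_at_apply]
    rfl
  have heval : ∀ i, (PR.map (φ : R →+* E)).eval (algebraMap k E (a i)) =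
      φ (PR.eval (algebraMap k R (a i))) := by
    intro i
    have h4 : algebraMap k E (a i) = (φ : R →+* E) (algebraMap k R (a i)) := (φ.commutes _).symm
    rw [eval_map, h4, eval₂_at_apply]
    rfl
  refine ⟨hm.map _, hsep.map, ?_, ?_, ?_, ?_⟩
  · rw [hm.natDegree_map, hdeg]; exact hn
  · intro i
    rw [coeff_map, ← hcoe, ev_coe]
    rfl
  · intro i
    have h5 : PR.eval (algebraMap k R (a i)) = ⟨u, huR⟩ * ⟨b i, hbR i⟩ * ⟨z i, hzR i⟩ ^ m := by
      apply Subtype.ext
      rw [hevalM, hval]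
      rfl
    rw [heval, h5, map_mul, map_mul, map_pow, ev_mem φ huR, ev_mem φ (hbR i), ev_mem φ (hzR i)]
  · intro i
    have h6 : P.eval (algebraMap k M (a i)) ∈ R := by
      rw [← hevalM]; exact (PR.eval (algebraMap k R (a i))).2
    rw [heval, ← ev_coe φ, hevalM]
    exact ev_ne_zero φ h6 (hinv i) (hne i)

variable [IsAlgClosed k] [CharZero k]

open Classical in
theorem poly_good {F₀ : Set M} {n N m : ℕ} (hN : 2 * n * m < N * (m - 1)) (P : M[X])
    (hP : P.Monic) (hsep : P.Separable) (hn : P.natDegree ≤ n) (a : Fin N → k)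
    (ha : Function.Injective a) (u : M) (b z : Fin N → M) (hb : ∀ i, GoodEl k F₀ (b i))
    (hval : ∀ i, P.eval (algebraMap k M (a i)) = u * b i * z i ^ m)
    (hne : ∀ i, P.eval (algebraMap k M (a i)) ≠ 0) (l : ℕ) : GoodEl k F₀ (P.coeff l) := by
  choose Tb hTb hbT hbB hbR using hb
  obtain ⟨A, B, hAB⟩ := hsep
  set T0 : Set M := (⋃ i, Tb i) ∪ ((P.coeffs : Set M) ∪ (A.coeffs : Set M) ∪ (B.coeffs : Set M) ∪
    {P.coeff l, u} ∪ Set.range z ∪ Set.range (fun i => (P.eval (algebraMap k M (a i)))⁻¹)) with hT0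
  have hT0f : T0.Finite := by
    apply Set.Finite.union
    · exact Set.finite_iUnion (fun i => hTb i)
    · exact (((((Finset.finite_toSet _).union (Finset.finite_toSet _)).union
        (Finset.finite_toSet _)).union (Set.toFinite _)).union (Set.finite_range _)).union
        (Set.finite_range _)
  have hsub : ∀ i, Tb i ⊆ T0 := fun i => (Set.subset_iUnion Tb i).trans Set.subset_union_left
  have hcoef : ∀ (R : Subalgebra k M), T0 ⊆ (R : Set M) → ∀ (Q : M[X]),
      (Q.coeffs : Set M) ⊆ T0 → ∀ i, Q.coeff i ∈ R := by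
    intro R hTR Q hQ i
    by_cases h0 : Q.coeff i = 0
    · rw [h0]; exact zero_mem R
    · exact hTR (hQ (coeff_mem_coeffs h0))
  have hPT : (P.coeffs : Set M) ⊆ T0 := fun x hx =>
    Or.inr (Or.inl (Or.inl (Or.inl (Or.inl (Or.inl hx)))))
  have hAT : (A.coeffs : Set M) ⊆ T0 := fun x hx =>
    Or.inr (Or.inl (Or.inl (Or.inl (Or.inl (Or.inr hx)))))
  have hBT : (B.coeffs : Set M) ⊆ T0 := fun x hx =>
    Or.inr (Or.inl (Or.inl (Or.inl (Or.inr hx))))
  have hlT : P.coeff l ∈ T0 := Or.inr (Or.inl (Or.inl (Or.inr (Or.inl rfl))))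
  have huT : u ∈ T0 := Or.inr (Or.inl (Or.inl (Or.inr (Or.inr rfl))))
  have hzT : ∀ i, z i ∈ T0 := fun i => Or.inr (Or.inl (Or.inr ⟨i, rfl⟩))
  have hiT : ∀ i, (P.eval (algebraMap k M (a i)))⁻¹ ∈ T0 := fun i => Or.inr (Or.inr ⟨i, rfl⟩)
  refine ⟨T0, hT0f, hlT, ?_, ?_⟩
  · -- bounded heights
    intro E _ _ _ ψ
    have hch : CharZero E := charZero_of_injective_algebraMap (algebraMap k E).injective
    obtain ⟨t, htr⟩ := FF.exists_transcendental (L := k) (E := E)
    obtain ⟨δ, hδ⟩ := exists_deriv k E htr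
    let D : Derivation ℤ E E := δ.restrictScalars ℤ
    have hDk : ∀ c : k, D (algebraMap k E c) = 0 := fun c => δ.map_algebraMap c
    have hPL : PresL k D := fun c => ⟨0, by rw [hDk, map_zero]⟩
    have hDt : D t ≠ 0 := by
      change δ t ≠ 0
      rw [hδ]; exact one_ne_zero
    have hconst : ∀ w, D w = 0 → ∃ c : k, algebraMap k E c = w := by
      intro w hw
      apply not_transcendental
      intro hwt
      have hal := FF.isAlgebraic hwt
      exact hDt (deriv_zero_of_isAlgebraic_adjoin (AlgHom.id k E) D hDk hw (hal.isAlgebraic t))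
    obtain ⟨cp, sc, hsc, hcp⟩ := bounded_poles (L := k) D hPL
    choose Bd hBd using fun i => hbB i E ψ
    set B0 : ℕ := ∑ i, Bd i with hB0
    have hBle : ∀ i, Bd i ≤ B0 := fun i =>
      Finset.single_le_sum (f := fun i => Bd i) (fun _ _ => Nat.zero_le _) (Finset.mem_univ i)
    refine ⟨m * (n * ∑ P ∈ sc, cp P + N * (N * (2 * B0))), fun R hTR φ hψ => ?_⟩
    obtain ⟨PR, hcoe, hdata⟩ := lift_data P hP A B hAB hn a u b z hval hne R (hcoef R hTR P hPT)
      (hcoef R hTR A hAT) (hcoef R hTR B hBT) (hTR huT) (fun i => hTR (hsub i (hbT i)))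
      (fun i => hTR (hzT i)) (fun i => hTR (hiT i))
    obtain ⟨h1, h2, h3, h4, h5, h6⟩ := hdata φ
    rw [← h4]
    refine poly_height hconst cp sc hsc hcp h1 h2 h3 hN a ha (fun i => hDk _) (ev φ u)
      (fun i => ev φ (b i)) (fun i => ev φ (z i)) h5 h6 B0 ?_ l
    intro i
    exact (hBd i R ((hsub i).trans hTR) φ (fun t ht => hψ t (hsub i ht))).trans (hBle i)
  · -- rigidity
    intro L E _ _ _ _ _ _ _ _ _ R hTR φ D hPL hDk hD0 P₀ hP₀ x₀ hx₀ hF₀
    obtain ⟨PR, hcoe, hdata⟩ := lift_data P hP A B hAB hn a u b z hval hne R (hcoef R hTR P hPT)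
      (hcoef R hTR A hAT) (hcoef R hTR B hBT) (hTR huT) (fun i => hTR (hsub i (hbT i)))
      (fun i => hTR (hzT i)) (fun i => hTR (hiT i))
    obtain ⟨h1, h2, h3, h4, h5, h6⟩ := hdata φ
    have hsc : ∀ c : k, algebraMap L E (algebraMap k L c) = algebraMap k E c := fun c =>
      (IsScalarTower.algebraMap_apply k L E c).symm
    rw [← h4]
    refine poly_rigid (L := L) hDk hD0 h1 h2 h3 hN (fun i => algebraMap k L (a i))
      ((algebraMap k L).injective.comp ha) (fun i => by rw [hsc]; exact hDk _) (ev φ u)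
      (fun i => ev φ (b i)) (fun i => ev φ (z i)) (fun i => by rw [hsc]; exact h5 i)
      (fun i => by rw [hsc]; exact h6 i) ?_ P₀ (fun i => x₀ (PR.coeff i)) ?_ l
    · intro i
      exact hbR i L E R ((hsub i).trans hTR) φ D hPL hDk hD0 P₀ hP₀ x₀ hx₀
        (fun t ht => hF₀ t (hsub i ht))
    · intro i
      rw [coeff_map]
      exact hx₀ _

theorem good_of_polyStep {F₀ : Set M} {F F' : Subfield M}
    (h : PolyStep (algebraMap k M).fieldRange F F') (hF : ∀ a ∈ F, GoodEl k F₀ a) :
    ∀ a ∈ F', GoodEl k F₀ a := by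
  intro w hw
  obtain ⟨n, N, m, P, u, a, b, z, hN, hn, hsep, ha, hval, halg⟩ := h.step
  refine good_of_isAlgebraic ?_ (halg w hw)
  rintro y (hy | ⟨i, j, rfl⟩)
  · exact hF y hy
  · have hN0 : 0 < N := by
      rcases Nat.eq_zero_or_pos N with h0 | h0
      · subst h0; simp at hN
      · exact h0
    have hP0 : P ≠ 0 := by
      rintro rfl
      exact (hval ⟨0, hN0⟩).2.2.1 (by simp)
    choose a' ha' using fun i => (hval i).1
    have hlc : P.leadingCoeff ≠ 0 := leadingCoeff_ne_zero.2 hP0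
    have hCu : IsUnit (C P.leadingCoeff⁻¹) := isUnit_C.2 (isUnit_iff_ne_zero.2 (inv_ne_zero hlc))
    set P' : M[X] := P * C P.leadingCoeff⁻¹ with hP'
    have hm' : P'.Monic := monic_mul_leadingCoeff_inv hP0
    have hsep' : P'.Separable := by
      obtain ⟨A, B, hAB⟩ := hsep
      refine ⟨A * C P.leadingCoeff, B * C P.leadingCoeff, ?_⟩
      have h1 : C P.leadingCoeff * C P.leadingCoeff⁻¹ = 1 := by
        rw [← C_mul, mul_inv_cancel₀ hlc, C_1]
      have h2 : derivative P' = derivative P * C P.leadingCoeff⁻¹ := by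
        rw [hP', derivative_mul, derivative_C, mul_zero, add_zero]
      rw [h2]
      calc A * C P.leadingCoeff * (P * C P.leadingCoeff⁻¹) +
            B * C P.leadingCoeff * (derivative P * C P.leadingCoeff⁻¹) =
            (A * P + B * derivative P) * (C P.leadingCoeff * C P.leadingCoeff⁻¹) := by ring
        _ = 1 := by rw [hAB, h1, one_mul]
    have hn' : P'.natDegree ≤ n := by
      refine le_trans ?_ hn
      rw [hP']
      refine natDegree_mul_le.trans ?_
      rw [natDegree_C, add_zero]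
    have hgood : ∀ l, GoodEl k F₀ (P'.coeff l) := by
      intro l
      refine poly_good hN P' hm' hsep' hn' a' ?_ (u * P.leadingCoeff⁻¹) b z
        (fun i => hF _ (hval i).2.1) ?_ ?_ l
      · intro i j hij
        apply ha
        rw [← ha' i, ← ha' j, hij]
      · intro i
        rw [ha' i, hP', eval_mul, eval_C, (hval i).2.2.2]
        ring
      · intro i
        rw [ha' i, hP', eval_mul, eval_C]
        exact mul_ne_zero (hval i).2.2.1 (inv_ne_zero hlc)
    have hratio : P.coeff i / P.coeff j = P'.coeff i / P'.coeff j := by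
      rw [hP', coeff_mul_C, coeff_mul_C, mul_div_mul_right _ _ (inv_ne_zero hlc)]
    rw [hratio]
    refine good_of_isAlgebraic (S := {P'.coeff i, P'.coeff j}) ?_ ?_
    · rintro s (rfl | rfl)
      · exact hgood i
      · exact hgood j
    · have h3 : P'.coeff i / P'.coeff j ∈ Subfield.closure {P'.coeff i, P'.coeff j} :=
        div_mem (Subfield.subset_closure (Or.inl rfl)) (Subfield.subset_closure (Or.inr rfl))
      exact isAlgebraic_algebraMap (⟨_, h3⟩ : Subfield.closure {P'.coeff i, P'.coeff j})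

theorem good_of_polyTower {F₀ : Set M} {F F' : Subfield M}
    (h : Relation.ReflTransGen (PolyStep (algebraMap k M).fieldRange) F F')
    (hF : ∀ a ∈ F, GoodEl k F₀ a) : ∀ a ∈ F', GoodEl k F₀ a := by
  induction h with
  | refl => exact hF
  | tail _ h ih => exact good_of_polyStep h ih

end PolyGood

end PGH.PT
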